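import Pool.Agent.Helper53.AE.Box

/-!
# MP_ae0f86_nt: the period conjecture and exceptional sets with a power saving

`𝓜` stands for the category of Nori motives over `ℚ̄`, `L` for `ℚ(1)`, `h' i V` for the motive of the
Borel–Moore homology `H_i(V)` of a scheme `V` over `ℚ̄`, and `h i X` for the motive of `H_i(X ⊗ ℚ̄)`, if `X`
is a scheme over `ℚ`. The structure `Known` lists the known properties which are used. `tann S` is the
Tannakian category generated by the objects in `S`. `P` is any property of Tannakian categories of motives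
which is inherited by Tannakian subcategories, for instance the assertion of the question, in the
form (iii): the evaluation of formal periods is injective.

For `F ∈ ℤ[x_1, …, x_r]` let `D(F)` be the complement of the hypersurface `F = 0` in the affine space over
`ℚ`. It is a smooth affine variety, and its periods are integrals of rational functions with a power of `F` as
the denominator. We call `F` an exception if `P` is false for the Tannakian category generated by `ℚ(1)` and
the homology of `D(F)`. Let `Box(D, B)` be the finite set of the `F` of degree at most `D` in each variable,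
for which the sum of the absolute values of the coefficients is at most `B`.

**Theorem.** (1) For every quasi-projective scheme `X` over `ℚ` and all large `r` there is an `F` in `r`
variables such that `ℚ(1)` and the homology of `D(F)` generate the same Tannakian category as `ℚ(1)` and the
homology of `X`. For every quasi-projective scheme `V` over `ℚ̄` and all large `r`: for each `ε > 0`, all large
`D` and all `B` which are large for `D`, the homology of `V` belongs to the Tannakian category generated by
`ℚ(1)` and the homology of `D(F)` for more than `#Box(D, B) ^ (1 - ε)` polynomials `F` in the box.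

(2) `P` is true for the categories generated by `ℚ(1)` and the homology of `V`, for all `V`, if
and only if for infinitely many `r` the set of the exceptions in `r` variables has a power saving: for some
`ε > 0` there are infinitely many `D` and for these infinitely many `B` with at most
`#Box(D, B) ^ (1 - ε)` exceptions in the box.

(3) If there is one exception in `r` variables, then for each `ε > 0`, all large `D` and all `B` which are
large for `D` there are more than `#Box(D, B) ^ (1 - ε)` exceptions in the box.

(4) If the hypersurfaces `F = 0` and `G = 0` over `ℚ` are disjoint, then the category generated by `ℚ(1)` and the homology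
of `D(F)` is contained in that of `D(F G)`.
-/

set_option autoImplicit false

universe v w

namespace Pool.Agent.Results.MP_ae0f86_nt.PowerSaving

open Q54.CU Q54.TG Pool.Agent.Helper53.AE CategoryTheory Limits MonoidalCategory AlgebraicGeometry
  Filter

open Pool.Agent.Helper24.SE (Box Exc Saving)

variable {𝓜 : Type w} [Category.{v} 𝓜] [Abelian 𝓜] [MonoidalCategory 𝓜]

/-- The Tannakian category generated by `L = ℚ(1)` and by the homology of `X`. -/
def Gen {k : Type} [Field k] (h : ℤ → SchO k → 𝓜) (L : 𝓜) (X : SchO k) : 𝓜 → Prop :=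
  tann (insert L (homs h X))

/-- `X` is separated of finite type, and there is an affine bundle over `X` whose total space is affine. By
Jouanolou's trick all quasi-projective schemes have this property. -/
def QuasiProj {k : Type} [Field k] (X : SchO k) : Prop := IsVar X ∧ HasAffineTorsor X

/-- The known properties.

* `hom`: localization sequences, homology of affine bundles, of the point, and vanishing in large degrees,
  for schemes over `ℚ`;
* `sum`: open and closed subschemes, and vanishing in degrees larger than twice the dimension;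
* `tate`: `ℚ(1)` is invertible;
* `model`: every `V` over `ℚ̄` is open and closed in `X ⊗ ℚ̄` for some `X` over `ℚ`, hence its homology is a
  direct summand;
* `fibre`: the base change `V = X ⊗ ℚ̄`. -/
structure Known (h : ℤ → SchO ℚ → 𝓜) (h' : ℤ → SchO (AlgebraicClosure ℚ) → 𝓜) (L L' : 𝓜) :
    Prop where
  hom : IsMotHomology h L
  sum : IsSumDim h
  tate : Nonempty (L ⊗ L' ≅ 𝟙_ 𝓜)
  model : ∀ V : SchO (AlgebraicClosure ℚ), QuasiProj V →
    ∃ X : SchO ℚ, QuasiProj X ∧ ∀ i, IsRetract (h' i V) (h i X)
  fibre : ∀ X : SchO ℚ, QuasiProj X →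
    ∃ V : SchO (AlgebraicClosure ℚ), QuasiProj V ∧ ∀ i, Nonempty (h i X ≅ h' i V)

/-- A property of Tannakian categories which is inherited by Tannakian subcategories. -/
def Inherited (P : (𝓜 → Prop) → Prop) : Prop :=
  ∀ C D : 𝓜 → Prop, IsTann C → IsTann D → (∀ A, C A → D A) → P D → P C

/-- The exceptions in `r` variables: `P` is false for the category generated by `ℚ(1)` and the
homology of `D(F)`. -/
def Exception (h : ℤ → SchO ℚ → 𝓜) (L : 𝓜) (P : (𝓜 → Prop) → Prop) {r : ℕ}
    (F : MvPolynomial (Fin r) ℤ) : Prop := ¬ P (Gen h L (princ F))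

/-- **The period conjecture and exceptional sets with a power saving.** See the explanations above. -/
theorem result [MonoidalPreadditive 𝓜] (h : ℤ → SchO ℚ → 𝓜)
    (h' : ℤ → SchO (AlgebraicClosure ℚ) → 𝓜) (L L' : 𝓜) (hK : Known h h' L L')
    (P : (𝓜 → Prop) → Prop) (hP : Inherited P) :
    -- (1) each category is generated by some `D(F)`, and it is contained in that of many `D(F)`
    (∀ X : SchO ℚ, QuasiProj X → ∀ᶠ r : ℕ in atTop, ∃ F : MvPolynomial (Fin r) ℤ,
      Gen h L (princ F) = Gen h L X) ∧
    (∀ V : SchO (AlgebraicClosure ℚ), QuasiProj V → ∀ᶠ r : ℕ in atTop, ∀ ε : ℝ, 0 < ε →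
      ∀ᶠ D : ℕ in atTop, ∀ᶠ B : ℕ in atTop, ((Box r D B).ncard : ℝ) ^ (1 - ε) <
        ({F | F ∈ Box r D B ∧ ∀ i, Gen h L (princ F) (h' i V)}.ncard : ℝ)) ∧
    -- (2) all `V` and a power saving
    ((∀ V : SchO (AlgebraicClosure ℚ), QuasiProj V → P (Gen h' L V)) ↔
      ∃ᶠ r : ℕ in atTop, Saving (r := r) (Exception h L P)) ∧
    -- (3) the zero-one law
    (∀ (r : ℕ) (G : MvPolynomial (Fin r) ℤ), Exception h L P G → ∀ ε : ℝ, 0 < ε →
      ∀ᶠ D : ℕ in atTop, ∀ᶠ B : ℕ in atTop,
        ((Box r D B).ncard : ℝ) ^ (1 - ε) < ((Exc (r := r) (Exception h L P) D B).ncard : ℝ)) ∧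
    -- (4) disjoint hypersurfaces
    ∀ (r : ℕ) (F G : MvPolynomial (Fin r) ℤ),
      Ideal.span {MvPolynomial.map (algebraMap ℤ ℚ) F} ⊔
        Ideal.span {MvPolynomial.map (algebraMap ℤ ℚ) G} = ⊤ →
      ∀ A : 𝓜, Gen h L (princ F) A → Gen h L (princ (F * G)) A := by
  obtain ⟨hL⟩ := hK.tate
  have hT := fun (X : SchO ℚ) => isTann_tann (insert L (homs h X))
  have hT' := fun (X : SchO (AlgebraicClosure ℚ)) => isTann_tann (insert L (homs h' X))
  -- exceptions give exceptions
  have e1 : ∀ (r : ℕ) (G Q : MvPolynomial (Fin r) ℤ), Exception h L P G →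
      Exception h L P (G * (1 + G * Q)) := fun r G Q hG hcon =>
    hG (hP _ _ (hT _) (hT _) (tann_princ_one hK.hom hK.sum G Q) hcon)
  have e2 : ∀ r : ℕ, Exception h L P (0 : MvPolynomial (Fin r) ℤ) →
      Exception h L P (1 : MvPolynomial (Fin r) ℤ) := fun r hG hcon =>
    hG (hP _ _ (hT _) (hT _) (tann_princ_zero hK.hom hK.sum _) hcon)
  -- occurrence
  have occ : ∀ V : SchO (AlgebraicClosure ℚ), QuasiProj V → ∃ N : ℕ, ∀ r ≥ N,
      ∃ F : MvPolynomial (Fin r) ℤ, ∀ i, Gen h L (princ F) (h' i V) := by
    intro V hV
    obtain ⟨X, hX, hVX⟩ := hK.model V hV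
    obtain ⟨N, hN⟩ := exists_princ hK.hom hK.sum hL hX.1 hX.2
    refine ⟨N, fun r hr => ?_⟩
    obtain ⟨F, hF⟩ := hN r hr
    refine ⟨F, fun i => ?_⟩
    unfold Gen
    rw [hF]
    exact (hT X).retract (hVX i) fun C hC hS => hS _ (Or.inr ⟨i, rfl⟩)
  refine ⟨fun X hX => ?_, fun V hV => ?_, ⟨fun H => ?_, fun H V hV => ?_⟩, fun r G hG ε hε => ?_,
    fun r F G hFG A hA => tann_princ hK.hom hK.sum F G hFG A hA⟩
  · obtain ⟨N, hN⟩ := exists_princ hK.hom hK.sum hL hX.1 hX.2
    filter_upwards [eventually_ge_atTop N] with r hr
    exact hN r hr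
  · obtain ⟨N, hN⟩ := occ V hV
    filter_upwards [eventually_ge_atTop N] with r hr
    intro ε hε
    obtain ⟨F, hF⟩ := hN r hr
    exact full' (Bad := fun F : MvPolynomial (Fin r) ℤ => ∀ i, Gen h L (princ F) (h' i V))
      (fun G Q hG i => tann_princ_one hK.hom hK.sum G Q _ (hG i))
      (fun hG i => tann_princ_zero hK.hom hK.sum _ _ (hG i)) hF hε
  · refine Frequently.of_forall fun r => saving_of_none fun F hF => hF ?_
    obtain ⟨V, hV, hVF⟩ := hK.fibre (princ F)
      ⟨isVar_pri _, hasAffineTorsor_of_affine (isVar_pri _) (isAffine_pri _)⟩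
    have h1 := H V hV
    have h2 : Gen h L (princ F) = Gen h' L V := by
      refine tann_ext fun C hC hL => ?_
      constructor
      · rintro h2 _ ⟨i, rfl⟩
        obtain ⟨f⟩ := hVF i
        exact hC.iso ⟨f⟩ (h2 _ ⟨i, rfl⟩)
      · rintro h2 _ ⟨i, rfl⟩
        obtain ⟨f⟩ := hVF i
        exact hC.iso ⟨f.symm⟩ (h2 _ ⟨i, rfl⟩)
    rwa [h2]
  · obtain ⟨N, hN⟩ := occ V hV
    obtain ⟨r, hr, hrN⟩ := (H.and_eventually (eventually_ge_atTop N)).exists
    obtain ⟨F, hF⟩ := hN r hrN
    by_contra hcon
    refine none_of_saving (e1 r) (e2 r) hr F fun hPF => hcon ?_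
    refine hP _ _ (hT' V) (hT _) (fun A hA => hA _ (hT (princ F)) ?_) hPF
    rintro B (rfl | ⟨i, rfl⟩)
    · exact fun C hC hS => hS _ (Or.inl rfl)
    · exact hF i
  · exact full' (e1 r) (e2 r) hG hε

end Pool.Agent.Results.MP_ae0f86_nt.PowerSaving
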