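import Pool.Agent.Helper53.AE.Many

/-!
# MP_ae0f86_nt: the period conjecture and random smooth cubic hypersurfaces

`𝓜` stands for the category of Nori motives over `ℚ̄`, `L` for `ℚ(1)`, `h' i V` for the motive of the
Borel–Moore homology `H_i(V)` of a scheme `V` over `ℚ̄`, and `h i X` for the motive of `H_i(X ⊗ ℚ̄)`, if `X`
is a scheme over `ℚ`. The structure `Known` lists the known properties which are used. `tann S` is the
Tannakian category generated by the objects in `S`. `P` is any property of Tannakian categories of motives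
which is inherited by Tannakian subcategories, for instance the assertion of the question, in the
form (iii): the evaluation of formal periods is injective.

For an array `a = (a_jil)` of integers, `0 ≤ j ≤ r`, `0 ≤ i, l ≤ M`, let `X_a` be the hypersurface
`∑ a_jil λ_j x_i x_l = 1`, with `x_0 = 1`, in the affine space over `ℚ` with the coordinates `x_1, …, x_M` and
`λ_0, …, λ_r`. It is smooth, and has degree at most three. There are `(2B + 1) ^ N` arrays with
entries in `[-B, B]`, `N = (r + 1) (M + 1) ^ 2`.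

**Theorem.** (1) For every quasi-projective scheme `X` over `ℚ` there is an array `a` with the entries `0`, `1`
and `-1` such that `ℚ(1)` and the homology of `X_a` generate the same Tannakian category as `ℚ(1)` and the
homology of `X`. Let `V` be quasi-projective over `ℚ̄` and `ε > 0`. If `B ≥ 1`, `M ≥ C` and `r ≥ C M`, for a
certain `C`, then the homology of `V` belongs to the category generated by `ℚ(1)` and the homology of `X_a` for
more than `(2B + 1) ^ (N (1 - ε))` of the arrays `a` with entries in `[-B, B]`.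

(2) Let `B ≥ 1`, for example `B = 1`. `P` is true for the categories generated by `ℚ(1)` and the homology of
`V`, for all quasi-projective `V` over `ℚ̄`, if and only if for some `ε > 0` and every `C` there are `M ≥ C` and
`r ≥ C M` such that `P` is false for the categories generated by `ℚ(1)` and the homology of `X_a` for at most
`(2B + 1) ^ (N (1 - ε))` of the arrays with entries in `[-B, B]`.

(3) If `P` is false for one array `a`, of any size and with any entries, then for every `ε > 0` there is a `C`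
such that `P` is false for more than `(2B + 1) ^ (N (1 - ε))` of the arrays with entries in `[-B, B]`, for all
`B ≥ 1`, `M ≥ C` and `r ≥ C M`.
-/

set_option autoImplicit false

universe v w

namespace Pool.Agent.Results.MP_ae0f86_nt.RandomCubics

open Q54.CU Q54.TG Pool.Agent.Helper53.AE CategoryTheory Limits MonoidalCategory AlgebraicGeometry

variable {𝓜 : Type w} [Category.{v} 𝓜] [Abelian 𝓜] [MonoidalCategory 𝓜]

/-- The Tannakian category generated by `L = ℚ(1)` and by the homology of `X`. -/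
def Gen {k : Type} [Field k] (h : ℤ → SchO k → 𝓜) (L : 𝓜) (X : SchO k) : 𝓜 → Prop :=
  tann (insert L (homs h X))

/-- `X` is separated of finite type, and there is an affine bundle over `X` whose total space is affine. By
Jouanolou's trick all quasi-projective schemes have this property. -/
def QuasiProj {k : Type} [Field k] (X : SchO k) : Prop := IsVar X ∧ HasAffineTorsor X

/-- The known properties.

* `hom`: localization sequences, homology of affine bundles, of the point, and vanishing in large degrees,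
  for schemes over `ℚ`;
* `sum`: open and closed subschemes, and vanishing in degrees larger than twice the dimension;
* `tate`: `ℚ(1)` is invertible;
* `model`: every `V` over `ℚ̄` is open and closed in `X ⊗ ℚ̄` for some `X` over `ℚ`, hence its homology is a
  direct summand;
* `fibre`: the base change `V = X ⊗ ℚ̄`. -/
structure Known (h : ℤ → SchO ℚ → 𝓜) (h' : ℤ → SchO (AlgebraicClosure ℚ) → 𝓜) (L L' : 𝓜) :
    Prop where
  hom : IsMotHomology h L
  sum : IsSumDim h
  tate : Nonempty (L ⊗ L' ≅ 𝟙_ 𝓜)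
  model : ∀ V : SchO (AlgebraicClosure ℚ), QuasiProj V →
    ∃ X : SchO ℚ, QuasiProj X ∧ ∀ i, IsRetract (h' i V) (h i X)
  fibre : ∀ X : SchO ℚ, QuasiProj X →
    ∃ V : SchO (AlgebraicClosure ℚ), QuasiProj V ∧ ∀ i, Nonempty (h i X ≅ h' i V)

/-- A property of Tannakian categories which is inherited by Tannakian subcategories. -/
def Inherited (P : (𝓜 → Prop) → Prop) : Prop :=
  ∀ C D : 𝓜 → Prop, IsTann C → IsTann D → (∀ A, C A → D A) → P D → P C

/-- The number of the arrays `a` of size `(r + 1) × (M + 1) × (M + 1)` with entries in `[-B, B]` and the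
property `Q a`. -/
noncomputable def count (Q : ∀ M r : ℕ, Arr M r → Prop) (M r B : ℕ) : ℝ :=
  ((Exc3 Q M r B).ncard : ℝ)

/-- The number of all arrays of size `(r + 1) × (M + 1) × (M + 1)` with entries in `[-B, B]`. -/
def total (M r B : ℕ) : ℝ := ((2 * B + 1 : ℕ) : ℝ) ^ ((r + 1) * (M + 1) ^ 2)

/-- **The period conjecture and random smooth cubic hypersurfaces.** See the explanations above. -/
theorem result [MonoidalPreadditive 𝓜] (h : ℤ → SchO ℚ → 𝓜)
    (h' : ℤ → SchO (AlgebraicClosure ℚ) → 𝓜) (L L' : 𝓜) (hK : Known h h' L L')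
    (P : (𝓜 → Prop) → Prop) (hP : Inherited P) :
    -- the hypersurfaces are smooth and affine
    (∀ (M r : ℕ) (a : Arr M r), Smooth (cubic M r a).hom ∧ IsAffine (cubic M r a).left) ∧
    -- the number of all arrays
    (∀ M r B : ℕ, count (fun _ _ _ => True) M r B = total M r B) ∧
    -- (1) each category is generated by some `X_a`, and it is contained in that of many `X_a`
    (∀ X : SchO ℚ, QuasiProj X → ∃ (M r : ℕ) (a : Arr M r), (∀ j u v, |a j u v| ≤ 1) ∧
      Gen h L (cubic M r a) = Gen h L X) ∧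
    (∀ V : SchO (AlgebraicClosure ℚ), QuasiProj V → ∀ ε : ℝ, 0 < ε → ∃ C : ℕ, ∀ B M r : ℕ,
      1 ≤ B → C ≤ M → C * M ≤ r → total M r B ^ (1 - ε) <
        count (fun M r a => ∀ i, Gen h L (cubic M r a) (h' i V)) M r B) ∧
    -- (2) all `V` and a power saving
    (∀ B : ℕ, 1 ≤ B → ((∀ V : SchO (AlgebraicClosure ℚ), QuasiProj V → P (Gen h' L V)) ↔
      ∃ ε : ℝ, 0 < ε ∧ ∀ C : ℕ, ∃ M r : ℕ, C ≤ M ∧ C * M ≤ r ∧
        count (fun M r a => ¬ P (Gen h L (cubic M r a))) M r B ≤ total M r B ^ (1 - ε))) ∧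
    -- (3) the zero-one law
    (∀ (M₀ r₀ : ℕ) (a : Arr M₀ r₀), ¬ P (Gen h L (cubic M₀ r₀ a)) → ∀ ε : ℝ, 0 < ε → ∃ C : ℕ,
      ∀ B M r : ℕ, 1 ≤ B → C ≤ M → C * M ≤ r → total M r B ^ (1 - ε) <
        count (fun M r a => ¬ P (Gen h L (cubic M r a))) M r B) := by
  obtain ⟨hL⟩ := hK.tate
  have hT := fun (X : SchO ℚ) => isTann_tann (insert L (homs h X))
  have hT' := fun (X : SchO (AlgebraicClosure ℚ)) => isTann_tann (insert L (homs h' X))
  have haff : ∀ (M r : ℕ) (a : Arr M r), IsAffine (cubic M r a).left := fun M r a =>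
    (inferInstance : IsAffine (HypSch (quad ℚ a) (1 : ℚ)))
  have hvar : ∀ (M r : ℕ) (a : Arr M r), IsVar (cubic M r a) := fun M r a => isVar_hypO _ _
  -- zero-one law
  have e3 : ∀ (M₀ r₀ : ℕ) (a : Arr M₀ r₀), ¬ P (Gen h L (cubic M₀ r₀ a)) → ∀ ε : ℝ, 0 < ε →
      ∃ C : ℕ, ∀ B M r : ℕ, 1 ≤ B → C ≤ M → C * M ≤ r → total M r B ^ (1 - ε) <
        count (fun M r a => ¬ P (Gen h L (cubic M r a))) M r B := by
    intro M₀ r₀ a ha ε hε
    obtain ⟨M₁, r₁, b, hb, e⟩ := exists_ter hK.hom hK.sum hL a
    have hbP : ¬ P (Gen h L (cubic M₁ r₁ b)) := by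
      unfold Gen at ha ⊢
      rwa [e]
    exact many4 (Bad := fun M r a => ¬ P (Gen h L (cubic M r a)))
      (fun eI eJ a a' hG hcon =>
        hG (hP _ _ (hT _) (hT _) (tann_glue hK.hom hK.sum hL eI eJ a a') hcon)) hb hbP hε
  -- occurrence
  have exi : ∀ X : SchO ℚ, QuasiProj X → ∃ (M r : ℕ) (a : Arr M r), (∀ j u v, |a j u v| ≤ 1) ∧
      Gen h L (cubic M r a) = Gen h L X := by
    intro X hX
    obtain ⟨M, r, a, ha⟩ := exists_cubic hK.hom hL hX.1 hX.2
    obtain ⟨M₁, r₁, b, hb, e⟩ := exists_ter hK.hom hK.sum hL a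
    exact ⟨M₁, r₁, b, hb, e.trans ha⟩
  have occ : ∀ V : SchO (AlgebraicClosure ℚ), QuasiProj V → ∃ (M r : ℕ) (a : Arr M r),
      (∀ j u v, |a j u v| ≤ 1) ∧ ∀ i, Gen h L (cubic M r a) (h' i V) := by
    intro V hV
    obtain ⟨X, hX, hVX⟩ := hK.model V hV
    obtain ⟨M, r, a, hb, ha⟩ := exi X hX
    refine ⟨M, r, a, hb, fun i => ?_⟩
    rw [ha]
    exact (hT X).retract (hVX i) fun C hC hS => hS _ (Or.inr ⟨i, rfl⟩)
  refine ⟨fun M r a => ⟨smooth_hyp (quad ℚ a), haff M r a⟩, fun M r B => ?_, exi,
    fun V hV ε hε => ?_, fun B hB => ⟨fun H => ?_, ?_⟩, e3⟩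
  · unfold count total
    rw [← Nat.cast_pow, ← card_box3, ← Set.ncard_coe_finset]
    congr 2
    ext a
    exact ⟨fun ha => mem_box3.mpr ha.1, fun ha => ⟨mem_box3.mp ha, trivial⟩⟩
  · obtain ⟨M, r, a, hb, ha⟩ := occ V hV
    exact many4 (Bad := fun M r a => ∀ i, Gen h L (cubic M r a) (h' i V))
      (fun eI eJ a a' hG i => tann_glue hK.hom hK.sum hL eI eJ a a' _ (hG i)) hb ha hε
  · refine ⟨1, one_pos, fun C => ⟨C, C * C, le_rfl, le_rfl, ?_⟩⟩
    have h1 : Exc3 (fun M r a => ¬ P (Gen h L (cubic M r a))) C (C * C) B = ∅ := by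
      rw [Set.eq_empty_iff_forall_notMem]
      rintro a ⟨-, ha⟩
      refine ha ?_
      obtain ⟨V, hV, hVF⟩ := hK.fibre (cubic C (C * C) a)
        ⟨hvar _ _ _, hasAffineTorsor_of_affine (hvar _ _ _) (haff _ _ _)⟩
      have h2 : Gen h L (cubic C (C * C) a) = Gen h' L V := by
        refine tann_ext fun D hD _ => ?_
        constructor
        · rintro h2 _ ⟨i, rfl⟩
          obtain ⟨f⟩ := hVF i
          exact hD.iso ⟨f⟩ (h2 _ ⟨i, rfl⟩)
        · rintro h2 _ ⟨i, rfl⟩
          obtain ⟨f⟩ := hVF i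
          exact hD.iso ⟨f.symm⟩ (h2 _ ⟨i, rfl⟩)
      rw [h2]
      exact H V hV
    unfold count
    rw [h1, Set.ncard_empty, Nat.cast_zero]
    exact Real.rpow_nonneg (by unfold total; positivity) _
  · rintro ⟨ε, hε, H⟩ V hV
    obtain ⟨M, r, a, -, ha⟩ := occ V hV
    by_contra hcon
    have hbad : ¬ P (Gen h L (cubic M r a)) := by
      intro hPa
      refine hcon (hP _ _ (hT' V) (hT _) (fun A hA => hA _ (hT (cubic M r a)) ?_) hPa)
      rintro B (rfl | ⟨i, rfl⟩)
      · exact fun C hC hS => hS _ (Or.inl rfl)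
      · exact ha i
    obtain ⟨C, hC⟩ := e3 M r a hbad ε hε
    obtain ⟨M, r, hM, hr, hle⟩ := H C
    exact absurd hle (not_le.mpr (hC B M r hB hM hr))

end Pool.Agent.Results.MP_ae0f86_nt.RandomCubics
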