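import Pool.Agent.Helper67.AE.Hom

/-!
# MP_ae0f86_nt: the period conjecture and unions of two affine spaces

`h i X` stands for the Nori motive of the Borel–Moore homology `H_i(X)` of the scheme `X` over `k = ℚ̄`
and `L` for `ℚ(1)`; `IsMotHomology h L` lists the known properties which are used. `tann S` is the
Tannakian category generated by the objects in `S`. `C` is any property of Tannakian categories of
motives, for instance the assertion of the question: the formal period torsor is connected and its
dimension is the transcendence degree of the field of periods.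

`dblO q` is the double cover `t ^ 2 - t = y (∑ λ_j q_j(x) - 1)` of the affine space with the
coordinates `x_1, …, x_M`, `λ_0, …, λ_r` and `y`; the `q_j` are polynomials of degree at most two.
It is a smooth affine variety and the union of two open affine spaces of dimension `M + r + 2`.
-/

set_option autoImplicit false

universe v w

namespace Pool.Agent.Results.MP_ae0f86_nt.UnionsOfTwoAffineSpaces

open Q54.CU Q54.TG Pool.Agent.Helper67.AE CategoryTheory Limits MonoidalCategory AlgebraicGeometry

variable {k : Type} [Field k] {𝓜 : Type w} [Category.{v} 𝓜] [Abelian 𝓜] [MonoidalCategory 𝓜]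

/-- The homology of `X` has a direct summand `L = ℚ(1)`. For a smooth projective variety `X` of
positive dimension it is contained in `H_2(X)`. -/
def HasTateSummand (h : ℤ → SchO k → 𝓜) (L : 𝓜) (X : SchO k) : Prop :=
  ∃ b : ℤ, IsRetract L (h b X)

/-- `X` is a smooth affine variety and the union of two open subschemes which are isomorphic to the
affine space of the same dimension. -/
structure IsGluedSpace (X : SchO k) : Prop where
  var : IsVar X
  smooth : Smooth X.hom
  affine : IsAffine X.left
  glued : ∃ N : ℕ, TwoSpaces N X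

/-- **The period conjecture and unions of two affine spaces.** -/
theorem result [MonoidalPreadditive 𝓜] (h : ℤ → SchO k → 𝓜) (L L' : 𝓜) (hL : L ⊗ L' ≅ 𝟙_ 𝓜)
    (hh : IsMotHomology h L) (C : (𝓜 → Prop) → Prop) :
    (∀ (M r : ℕ) (q : Fin (r + 1) → MvPolynomial (Fin M) k),
      IsGluedSpace (dblO q) ∧ TwoSpaces (M + (r + 1) + 1) (dblO q)) ∧
    (∀ X : SchO k, IsVar X → HasAffineTorsor X →
      ∃ (M r : ℕ) (q : Fin (r + 1) → MvPolynomial (Fin M) k), (∀ j, (q j).totalDegree ≤ 2) ∧
        tann (homs h (dblO q)) = tann (insert L (homs h X)) ∧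
        (HasTateSummand h L X → tann (homs h (dblO q)) = tann (homs h X))) ∧
    List.TFAE
      [∀ X : SchO k, IsVar X → HasAffineTorsor X → C (tann (insert L (homs h X))),
        ∀ X : SchO k, IsGluedSpace X → C (tann (insert L (homs h X))),
        ∀ (M r : ℕ) (q : Fin (r + 1) → MvPolynomial (Fin M) k), (∀ j, (q j).totalDegree ≤ 2) →
          C (tann (insert L (homs h (dblO q))))] ∧
    ((∀ (M r : ℕ) (q : Fin (r + 1) → MvPolynomial (Fin M) k), (∀ j, (q j).totalDegree ≤ 2) →
        C (tann (homs h (dblO q)))) →
      ∀ X : SchO k, IsVar X → HasAffineTorsor X →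
        C (tann (insert L (homs h X))) ∧ (HasTateSummand h L X → C (tann (homs h X)))) := by
  -- the Tate object
  have hins : ∀ X : SchO k, HasTateSummand h L X →
      tann (insert L (homs h X)) = tann (homs h X) := by
    rintro X ⟨b, hb⟩
    funext A
    refine propext ⟨fun hA D hD hX => hA D hD ?_, fun hA D hD hX => hA D hD fun B hB =>
      hX B (Or.inr hB)⟩
    rintro B (rfl | hB)
    · exact hD.retract hb (hX _ ⟨b, rfl⟩)
    · exact hX B hB
  have hself : ∀ S : Set 𝓜, tann S L → tann (insert L S) = tann S := by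
    intro S hS
    funext A
    refine propext ⟨fun hA D hD hX => hA D hD ?_, fun hA D hD hX => hA D hD fun B hB =>
      hX B (Or.inr hB)⟩
    rintro B (rfl | hB)
    · exact hS D hD hX
    · exact hX B hB
  have hkey : ∀ X : SchO k, IsVar X → HasAffineTorsor X →
      ∃ (M r : ℕ) (q : Fin (r + 1) → MvPolynomial (Fin M) k), (∀ j, (q j).totalDegree ≤ 2) ∧
        tann (homs h (dblO q)) = tann (insert L (homs h X)) := by
    intro X hX hT
    obtain ⟨s, M, r, q, hq, ⟨S⟩⟩ := exists_setup2 hh hX hT
    exact ⟨M, r, q, hq, tann_dbl hh hL S⟩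
  have hgl : ∀ (M r : ℕ) (q : Fin (r + 1) → MvPolynomial (Fin M) k), IsGluedSpace (dblO q) :=
    fun M r q => ⟨isVar_dblO q, smooth_dblO q, isAffine_dblO q, ⟨_, twoSpaces_dblO q⟩⟩
  refine ⟨fun M r q => ⟨hgl M r q, twoSpaces_dblO q⟩, ?_, ?_, ?_⟩
  · intro X hX hT
    obtain ⟨M, r, q, hq, h1⟩ := hkey X hX hT
    exact ⟨M, r, q, hq, h1, fun h2 => h1.trans (hins X h2)⟩
  · tfae_have 1 → 2 := fun H X hX => H X hX.var (hasAffineTorsor_of_affine hX.var hX.affine)
    tfae_have 2 → 3 := fun H M r q _ => H _ (hgl M r q)
    tfae_have 3 → 1 := by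
      intro H X hX hT
      obtain ⟨M, r, q, hq, h1⟩ := hkey X hX hT
      have h2 : tann (homs h (dblO q)) L := by
        rw [h1]
        exact fun D _ hX => hX L (Or.inl rfl)
      have h3 := H M r q hq
      rwa [hself _ h2, h1] at h3
    tfae_finish
  · intro H X hX hT
    obtain ⟨M, r, q, hq, h1⟩ := hkey X hX hT
    have h3 := H M r q hq
    rw [h1] at h3
    exact ⟨h3, fun h2 => by rwa [hins X h2] at h3⟩

end Pool.Agent.Results.MP_ae0f86_nt.UnionsOfTwoAffineSpaces
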